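import Mathlib
import Pool.Agent.Lib.MP_ea66ba_co.CubicMain
import Pool.Agent.Lib.MP_ea66ba_co.PermMain

set_option autoImplicit false

namespace Pool.Agent.Results.MP_ea66ba_co.CubicMaps

open Pool.Agent.Lib.MP_ea66ba_co

/-- The Walsh coefficient of the component `b` of the map `f` at `u`. -/
def walsh {n : ℕ} (f : (Fin n → ZMod 2) → (Fin n → ZMod 2)) (b u : Fin n → ZMod 2) : ℤ :=
  ∑ v : Fin n → ZMod 2, (-1 : ℤ) ^ ((dotProduct b (f v) + dotProduct u v).val)

lemma wt_eq_card (h : (Fin 12 → ZMod 2) → ZMod 2) :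
    wt h = ((Finset.univ.filter fun v => h v = 1).card : ℤ) := by
  rw [wt, Finset.card_filter]
  push_cast
  refine Finset.sum_congr rfl fun v _ => ?_
  have : ∀ x : ZMod 2, (x.val : ℤ) = if x = 1 then 1 else 0 := by decide
  exact this _

/-- Maps of algebraic degree at most three in 8, 10 and 12 variables have at least the
conjectured linearity; in 12 variables under the condition that the weights of the components
are divisible by 16, as for permutations. -/
theorem result :
    (∀ f : (Fin 8 → ZMod 2) → (Fin 8 → ZMod 2), DegreeLE 3 f →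
      ∃ b, b ≠ 0 ∧ ∃ u, (2 : ℤ) ^ 5 ≤ |walsh f b u|) ∧
    (∀ f : (Fin 10 → ZMod 2) → (Fin 10 → ZMod 2), DegreeLE 3 f →
      ∃ b, b ≠ 0 ∧ ∃ u, (2 : ℤ) ^ 6 ≤ |walsh f b u|) ∧
    (∀ f : (Fin 12 → ZMod 2) → (Fin 12 → ZMod 2), DegreeLE 3 f →
      (∀ b : Fin 12 → ZMod 2,
        16 ∣ (Finset.univ.filter fun v : Fin 12 → ZMod 2 => dotProduct b (f v) = 1).card) →
      ∃ b, b ≠ 0 ∧ ∃ u, (2 : ℤ) ^ 7 ≤ |walsh f b u|) := by
  refine ⟨fun f hf => ?_, fun f hf => ?_, fun f hf hw => ?_⟩
  · have h := cubic8 f hf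
    norm_num
    exact h
  · have h := cubic10 f hf
    norm_num
    exact h
  · have h := cubic12 f hf (fun b => by
      rw [wt_eq_card]
      exact_mod_cast hw b)
    norm_num
    exact h

end Pool.Agent.Results.MP_ea66ba_co.CubicMaps
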