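import Mathlib
import Pool.Agent.Lib.MP_ea66ba_co.Bij
import Pool.Agent.Lib.MP_ea66ba_co.General

set_option autoImplicit false

namespace Pool.Agent.Results.MP_ea66ba_co.DimensionSix

open Pool.Agent.Lib.MP_ea66ba_co

lemma W_eq (f : (Fin 6 → ZMod 2) → (Fin 6 → ZMod 2)) (b u : Fin 6 → ZMod 2) :
    W f b u = ∑ v : Fin 6 → ZMod 2, (-1 : ℤ) ^ ((dotProduct b (f v) + dotProduct u v).val) :=
  rfl

/-- Minimal linearity of maps on the 6-dimensional space over the field with two elements.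
Every map whose values sum to zero, in particular every permutation, has linearity at least 16,
the conjectured value; every map at all has linearity at least 14. -/
theorem result :
    (∀ f : (Fin 6 → ZMod 2) → (Fin 6 → ZMod 2), (∑ v, f v = 0 ∨ Function.Bijective f) →
      ∃ b : Fin 6 → ZMod 2, b ≠ 0 ∧ ∃ u : Fin 6 → ZMod 2,
        (16 : ℤ) ≤ |∑ v : Fin 6 → ZMod 2,
          (-1 : ℤ) ^ ((dotProduct b (f v) + dotProduct u v).val)|) ∧
    (∀ f : (Fin 6 → ZMod 2) → (Fin 6 → ZMod 2),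
      ∃ b : Fin 6 → ZMod 2, b ≠ 0 ∧ ∃ u : Fin 6 → ZMod 2,
        (14 : ℤ) ≤ |∑ v : Fin 6 → ZMod 2,
          (-1 : ℤ) ^ ((dotProduct b (f v) + dotProduct u v).val)|) := by
  have h1 : ∀ f : (Fin 6 → ZMod 2) → (Fin 6 → ZMod 2), (∑ v, f v = 0 ∨ Function.Bijective f) →
      ∃ b : Fin 6 → ZMod 2, b ≠ 0 ∧ ∃ u : Fin 6 → ZMod 2, (16 : ℤ) ≤ |W f b u| := by
    rintro f (hf | hf)
    · exact six f hf
    · refine six f ?_
      rw [Function.Bijective.sum_comp hf (fun v => v)]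
      exact sum_all_vec (by norm_num)
  refine ⟨h1, fun f => ?_⟩
  by_cases hf : ∑ v, f v = 0
  · obtain ⟨b, hb, u, hu⟩ := h1 f (Or.inl hf)
    exact ⟨b, hb, u, le_trans (by norm_num) hu⟩
  · exact fourteen f hf

end Pool.Agent.Results.MP_ea66ba_co.DimensionSix
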