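import Mathlib
import Pool.Agent.Lib.MP_ea66ba_co.SixtyFour

set_option autoImplicit false

namespace Pool.Agent.Results.MP_ea66ba_co.EightVariables

open Pool.Agent.Lib.MP_ea66ba_co

/-- The Walsh coefficient of the component `b` of the map `f` at `u`. -/
def walsh {n : ℕ} (f : (Fin n → ZMod 2) → (Fin n → ZMod 2)) (b u : Fin n → ZMod 2) : ℤ :=
  ∑ v : Fin n → ZMod 2, (-1 : ℤ) ^ ((dotProduct b (f v) + dotProduct u v).val)

/-- The number of `v` with `b · f v = 1`. -/
def weight (f : (Fin 8 → ZMod 2) → (Fin 8 → ZMod 2)) (b : Fin 8 → ZMod 2) : ℕ :=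
  (Finset.univ.filter fun v : Fin 8 → ZMod 2 => dotProduct b (f v) = 1).card

/-- The components `b` with `∑ v, (b · f v) v = 0` and weight divisible by four. -/
def kerZero (f : (Fin 8 → ZMod 2) → (Fin 8 → ZMod 2)) : Finset (Fin 8 → ZMod 2) :=
  Finset.univ.filter fun b => ∑ v, (dotProduct b (f v)) • v = 0 ∧ 4 ∣ weight f b

/-- The components `b` with `∑ v, (b · f v) v = 0` and weight not divisible by four. -/
def kerOne (f : (Fin 8 → ZMod 2) → (Fin 8 → ZMod 2)) : Finset (Fin 8 → ZMod 2) :=
  Finset.univ.filter fun b => ∑ v, (dotProduct b (f v)) • v = 0 ∧ ¬ 4 ∣ weight f b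

lemma wt_eq_weight (f : (Fin 8 → ZMod 2) → (Fin 8 → ZMod 2)) (b : Fin 8 → ZMod 2) :
    wt (fun v => dotProduct b (f v)) = (weight f b : ℤ) := by
  rw [wt, weight, Finset.card_filter]
  push_cast
  refine Finset.sum_congr rfl fun v _ => ?_
  have : ∀ x : ZMod 2, (x.val : ℤ) = if x = 1 then 1 else 0 := by decide
  exact this _

lemma chi_half (a : ℤ) (m : ℕ) (h : (m : ℤ) = 2 * a) :
    chi ((a : ℤ) : ZMod 2) = if 4 ∣ m then 1 else -1 := by
  rcases Int.even_or_odd a with ⟨c, hc⟩ | ⟨c, hc⟩
  · have h1 : ((a : ℤ) : ZMod 2) = 0 := by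
      rw [hc, Int.cast_add]
      exact CharTwo.add_self_eq_zero _
    rw [h1, chi_zero, if_pos]
    omega
  · have h1 : ((a : ℤ) : ZMod 2) = 1 := by
      rw [hc, Int.cast_add, Int.cast_mul]
      have h2 : ((2 : ℤ) : ZMod 2) = 0 := by decide
      rw [h2]
      simp
    rw [h1, chi_one, if_neg]
    omega

/-- Maps of the 8-dimensional space over the field with two elements with value sum zero have
linearity at least 28, if the number of the `b` with `∑ v, (b · f v) v = 0` and weight divisible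
by four exceeds the number of those with weight not divisible by four by at most 64. -/
theorem result (f : (Fin 8 → ZMod 2) → (Fin 8 → ZMod 2)) (hf : ∑ v, f v = 0)
    (h : (kerZero f).card ≤ (kerOne f).card + 64) :
    ∃ b, b ≠ 0 ∧ ∃ u, (28 : ℤ) ≤ |walsh f b u| := by
  have hev : ∀ b, ∃ a : ℤ, wt (fun v => dotProduct b (f v)) = 2 * a := by
    intro b
    have h1 : ∑ v, dotProduct b (f v) = 0 := by rw [← dotProduct_sum, hf, dotProduct_zero]
    obtain ⟨a, ha⟩ := two_dvd_wt _ h1
    exact ⟨a, ha⟩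
  choose a ha using hev
  have h0 : kerZero f = (Ker (slope f)).filter fun b => 4 ∣ weight f b := by
    rw [kerZero, Ker, Finset.filter_filter]
    rfl
  have h1 : kerOne f = (Ker (slope f)).filter fun b => ¬ 4 ∣ weight f b := by
    rw [kerOne, Ker, Finset.filter_filter]
    rfl
  have h3 : ∑ b ∈ Ker (slope f), chi ((a b : ℤ) : ZMod 2) =
      (kerZero f).card - (kerOne f).card := by
    have h4 : ∀ b ∈ Ker (slope f), chi ((a b : ℤ) : ZMod 2) =
        if 4 ∣ weight f b then 1 else -1 := by
      intro b _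
      exact chi_half _ _ (by rw [← wt_eq_weight, ha])
    rw [Finset.sum_congr rfl h4, Finset.sum_ite, ← h0, ← h1, Finset.sum_const,
      Finset.sum_const]
    simp only [nsmul_eq_mul]
    ring
  refine eight_all f hf a ha ?_
  rw [h3]
  have h4 : ((kerZero f).card : ℤ) ≤ (kerOne f).card + 64 := by exact_mod_cast h
  linarith

end Pool.Agent.Results.MP_ea66ba_co.EightVariables
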