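import Mathlib
import Pool.Agent.Lib.MP_ea66ba_co.PermMain

set_option autoImplicit false

namespace Pool.Agent.Results.MP_ea66ba_co.LowDegree

open Pool.Agent.Lib.MP_ea66ba_co

/-- The Walsh coefficient of the component `b` of the map `f` at `u`. -/
def walsh {n : ℕ} (f : (Fin n → ZMod 2) → (Fin n → ZMod 2)) (b u : Fin n → ZMod 2) : ℤ :=
  ∑ v : Fin n → ZMod 2, (-1 : ℤ) ^ ((dotProduct b (f v) + dotProduct u v).val)

/-- Minimal linearity of maps on a space of even dimension over the field with two elements: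
a criterion for linearity at least `2 ^ (m + 1)` in dimension `2 * m`, and permutations of the
8-dimensional space of degree at most five with inverse of degree at most five. -/
theorem result :
    (∀ m : ℕ, 3 ≤ m → ∀ f : (Fin (2 * m) → ZMod 2) → (Fin (2 * m) → ZMod 2),
      (∀ b u, (2 : ℤ) ^ (m - 1) ∣ walsh f b u) →
      (∀ b₁ u₁ b₂ u₂ b₃ u₃ : Fin (2 * m) → ZMod 2, 2 ^ (m - 3) ∣
        (Finset.univ.filter fun v : Fin (2 * m) → ZMod 2 =>
          dotProduct b₁ (f v) + dotProduct u₁ v = 0 ∧ dotProduct b₂ (f v) + dotProduct u₂ v = 0 ∧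
            dotProduct b₃ (f v) + dotProduct u₃ v = 0).card) →
      ∃ b, b ≠ 0 ∧ ∃ u, (2 : ℤ) ^ (m + 1) ≤ |walsh f b u|) ∧
    (∀ f : Equiv.Perm (Fin 8 → ZMod 2), DegreeLE 5 f → DegreeLE 5 f.symm →
      ∃ b, b ≠ 0 ∧ ∃ u, (32 : ℤ) ≤ |walsh f b u|) := by
  refine ⟨fun m hm f h1 h2 => quad_criterion m hm f h1 h2, fun f hf hg => ?_⟩
  have h := perm_degree 4 5 (by norm_num) (by norm_num) f hf hg
  norm_num at h
  exact h

end Pool.Agent.Results.MP_ea66ba_co.LowDegree
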